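import Pool.Agent.Helper98.GX.St4

/-! FI3: the equality theorem. -/

set_option autoImplicit false

namespace Pool.Agent.Helper77.GX

open Pool.Agent.Helper98.GX
open Pool.Agent.Helper53.CX (DivVal LinSys IsNefCartier)

theorem hFI3 (hEQ1 : StEQ1) (hEQ2 : StEQ2) (hFAM : StFAM) (hSTA : StSTA) (hCMB : StCMB)
    (hLFR : StLFR) (hGLB : StGLB) (hFTR : StFTR) : StFI3 := by
  intro K _ _ n L V0 V r B SC hn hne ι _ p hp h0 C hC ρ hρ hle
  obtain ⟨hA, F, hF, hF0, hFle⟩ := hEQ1 K n L V0 V r B SC ι p hp h0 C hC ρ hρ hle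
  obtain ⟨⟨Fr⟩, hdeg, hM⟩ := hEQ2 K n L V0 r B SC hne ι V.primes p hp h0 F hF hF0 hFle
  obtain ⟨Φ, hΦ⟩ := hFAM K V0 r B n L Fr hn ι V.primes p hp h0 F hF hF0 hdeg hM
  have hst : Φ.Stable := hSTA K V0 r B n L Fr Φ fun v => by
    rw [hΦ v]
    have := hp.glc v
    linarith
  obtain ⟨T, hT, hg, had⟩ := hCMB (n + r) r Fr.bl Φ hst
  obtain ⟨L'', Fr', -, hg', hord⟩ := hLFR K V0 r B n L Fr T hT hg
  refine hFTR K V0 r B n L'' Fr' V.primes (fun v => p.B L v) hA h0 fun v hv => ?_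
  have h1 : ∑ a, v.ord (Fr.sec (T a)) = Fr.Ad v := by
    refine hGLB K V0 r B n L Fr Φ T hst hT hg had v ?_
    rw [hΦ v]
    have hv' : p.B L v = 1 := hv
    rw [hv']
    ring
  have h2 := hord v
  simp only [hg'] at h2
  rw [h1] at h2
  unfold Frame.Ad at h2
  linarith

end Pool.Agent.Helper77.GX
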